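import Pool.Agent.H500.ME.Stm
import Pool.Agent.H399.ED.AVA

/-!
# Project ME of helper500, part B10: from ideals to divisors (helper231)
-/

set_option autoImplicit false
set_option linter.unusedSectionVars false

open NumberField IsDedekindDomain Filter Topology

namespace Pool.Agent.H231.ME.DIV

open Pool.Agent.H500.HC (InRay TotPos QBar ZBar jz)
open Pool.Agent.Q92.AR (Dv prin Ray Pos Cong prin_apply prin_div val_eq_one)
open Pool.Agent.H500.TH (typB)
open Pool.Agent.H500.ED (IsHecke)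
open Pool.Agent.H500.ME (typU IsAlg at1)
open Pool.Agent.H399.ED.AVA (ideal_ind cop_of_mul not_le_of_cop cop_of_not_le AD AD_single exists_den)

noncomputable section

section divisors

variable {K : Type} [Field K] [NumberField K] {G : Type} [CommGroup G]

/-- the value at the divisor of an ideal -/
theorem AD_ideal {N : ℕ} {A : Ideal (𝓞 K) → G} (h1 : A ⊤ = 1)
    (hmul : ∀ I J : Ideal (𝓞 K), I ≠ ⊥ → J ≠ ⊥ → IsCoprime I (Ideal.span {(N : 𝓞 K)}) →
      IsCoprime J (Ideal.span {(N : 𝓞 K)}) → A (I * J) = A I * A J) :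
    ∀ I : Ideal (𝓞 K), I ≠ ⊥ → (IsCoprime I (Ideal.span {(N : 𝓞 K)}) → ∀ d : Dv K,
      (∀ v, d v = FractionalIdeal.count K v (I : FractionalIdeal (nonZeroDivisors (𝓞 K)) K)) →
      AD N A d = Additive.ofMul (A I)) := by
  classical
  refine ideal_ind ?_ ?_
  · intro _ d hd
    have h0 : d = 0 := by
      ext v
      rw [hd, FractionalIdeal.coeIdeal_top, FractionalIdeal.count_one]
      rfl
    rw [h0, map_zero, h1]
    rfl
  · intro v I hI ih hP d hd
    obtain ⟨hv, hI'⟩ := cop_of_mul hP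
    have hvb : (N : 𝓞 K) ∉ v.asIdeal := fun h =>
      not_le_of_cop hv v ((Ideal.span_singleton_le_iff_mem _).2 h) le_rfl
    have h2 := ih hI' (d - Finsupp.single v 1) (fun u => by
      rw [Finsupp.sub_apply, hd, FractionalIdeal.coeIdeal_mul, FractionalIdeal.count_mul K u
        (FractionalIdeal.coeIdeal_ne_zero.2 v.ne_bot) (FractionalIdeal.coeIdeal_ne_zero.2 hI),
        FractionalIdeal.count_maximal, Finsupp.single_apply]
      ring)
    have h3 : AD N A d = AD N A (d - Finsupp.single v 1) + AD N A (Finsupp.single v 1) := by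
      rw [← map_add, sub_add_cancel]
    rw [h3, h2, AD_single hvb, hmul _ _ v.ne_bot hI hv hI', mul_comm]
    rfl

/-- an element of the ray is coprime to the modulus -/
theorem cop_of_ray {N B : ℕ} (hB : B ∣ N) {y : 𝓞 K} (hy : InRay N y) :
    IsCoprime (Ideal.span {y}) (Ideal.span {(B : 𝓞 K)}) := by
  rw [Ideal.isCoprime_iff_sup_eq, Ideal.eq_top_iff_one]
  have h1 : (1 : 𝓞 K) = y - (y - 1) := by ring
  rw [h1]
  refine Submodule.sub_mem _ (Ideal.mem_sup_left (Ideal.mem_span_singleton_self y))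
    (Ideal.mem_sup_right (Ideal.mem_span_singleton.2 ?_))
  exact (Nat.cast_dvd_cast hB).trans hy.2.1

/-- an element of the ray is a quotient of integers in the ray -/
theorem exists_quot {N : ℕ} (hN : N ≠ 0) {x : Kˣ} (hx' : x ∈ Ray K N) :
    ∃ (y z : 𝓞 K) (Z : Kˣ), InRay N y ∧ InRay N z ∧ (Z : K) = z ∧ ((x * Z : Kˣ) : K) = y := by
  obtain ⟨hx, hpos⟩ := hx'
  obtain ⟨z, w, hz0, hz1, hzw⟩ := exists_den hN hx
  have hNK : (N : K) ≠ 0 := Nat.cast_ne_zero.2 hN
  have hzK : (z : K) ≠ 0 := fun h => hz0 (RingOfIntegers.coe_eq_zero_iff.1 h)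
  obtain ⟨u, hu⟩ := Ideal.mem_span_singleton'.1 hz1
  have hzzK : ((z * z : 𝓞 K) : K) = (z : K) * z := by
    rw [RingOfIntegers.coe_eq_algebraMap, map_mul]
  -- `z ^ 2`
  have hzz : InRay N (z * z) := by
    refine ⟨mul_ne_zero hz0 hz0, ?_, fun τ => ?_⟩
    · have h1 : z * z - 1 = (z + 1) * (z - 1) := by ring
      rw [h1]
      exact (Ideal.mem_span_singleton.1 hz1).mul_left _
    · rw [hzzK, map_mul]
      exact mul_self_pos.2 ((map_ne_zero τ).2 hzK)
  -- `y = x z ^ 2`
  have hyK : ((w * z : 𝓞 K) : K) = (x : K) * ((z : K) * z) := by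
    rw [RingOfIntegers.coe_eq_algebraMap, map_mul, ← mul_assoc, hzw]
  have hu2 : (z : K) - 1 = (u : K) * (N : ℕ) := by
    have h1 := congrArg (algebraMap (𝓞 K) K) hu
    rw [map_mul, map_sub, map_one, map_natCast] at h1
    exact h1.symm
  have hy1 : (N : 𝓞 K) ∣ w * z - 1 := by
    have h2 : ∀ v : HeightOneSpectrum (𝓞 K),
        v.valuation K ((((w * z : 𝓞 K) : K) - 1) / (N : K)) ≤ 1 := by
      intro v
      have hv0 : v.valuation K (N : K) ≠ 0 :=
        (Valuation.ne_zero_iff _).2 hNK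
      rw [map_div₀]
      refine div_le_one_of_le₀ ?_ zero_le
      by_cases hv : (N : 𝓞 K) ∈ v.asIdeal
      · have h3 : ((w * z : 𝓞 K) : K) - 1 = ((x : K) - 1) * ((z * z : 𝓞 K) : K) +
            ((u * (z + 1) : 𝓞 K) : K) * (N : K) := by
          rw [hyK, hzzK, RingOfIntegers.coe_eq_algebraMap (u * (z + 1)), map_mul, map_add,
            map_one]
          linear_combination ((z : K) + 1) * hu2
        rw [h3]
        refine (Valuation.map_add _ _ _).trans (max_le ?_ ?_)
        · rw [map_mul]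
          exact (mul_le_of_le_one_right' (v.valuation_le_one _)).trans (hx v hv)
        · rw [map_mul]
          exact mul_le_of_le_one_left' (v.valuation_le_one _)
      · have h3 : v.valuation K (N : K) = 1 := by
          have h4 := (v.valuation_eq_one_iff_notMem (K := K)).2 hv
          rwa [map_natCast] at h4
        rw [h3]
        have h4 : ((w * z : 𝓞 K) : K) - 1 = ((w * z - 1 : 𝓞 K) : K) := by
          rw [RingOfIntegers.coe_eq_algebraMap, RingOfIntegers.coe_eq_algebraMap, map_sub,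
            map_one]
        rw [h4]
        exact v.valuation_le_one _
    obtain ⟨t, ht⟩ := HeightOneSpectrum.mem_integers_of_valuation_le_one (R := 𝓞 K) K _ h2
    have h5 : w * z - 1 = t * (N : ℕ) := by
      apply FaithfulSMul.algebraMap_injective (𝓞 K) K
      rw [map_mul, ht, map_natCast, div_mul_cancel₀ _ hNK, map_sub, map_one,
        RingOfIntegers.coe_eq_algebraMap]
    rw [h5]
    exact Dvd.intro_left t rfl
  have hy : InRay N (w * z) := by
    refine ⟨?_, hy1, fun τ => ?_⟩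
    · intro h0
      rw [h0, RingOfIntegers.coe_eq_algebraMap, map_zero] at hyK
      exact mul_ne_zero x.ne_zero (mul_ne_zero hzK hzK) hyK.symm
    · rw [hyK, map_mul, map_mul]
      exact mul_pos (hpos τ) (mul_self_pos.2 ((map_ne_zero τ).2 hzK))
  refine ⟨w * z, z * z, Units.mk0 ((z * z : 𝓞 K) : K) (by rw [hzzK]; exact mul_ne_zero hzK hzK),
    hy, hzz, rfl, ?_⟩
  rw [hyK, Units.val_mul, Units.val_mk0, hzzK]

end divisors

section typ

variable {L : Type} [Field L] [NumberField L]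

theorem typU_mul (t : (L →+* QBar) → ℤ) (x y : Lˣ) : typU t (x * y) = typU t x * typU t y := by
  unfold typU
  rw [← Finset.prod_mul_distrib]
  refine Finset.prod_congr rfl fun σ _ => ?_
  rw [map_mul, mul_zpow]

theorem coe_typB (t : (L →+* QBar) → ℕ) (x : 𝓞 L) :
    ((typB t x : ZBar) : QBar) = ∏ σ : L →+* QBar, σ (x : L) ^ t σ := by
  unfold typB
  rw [RingOfIntegers.coe_eq_algebraMap, map_prod]
  refine Finset.prod_congr rfl fun σ _ => ?_
  rw [map_pow]
  rfl

theorem coe_typU (t : (L →+* QBar) → ℕ) (x : 𝓞 L) (X : Lˣ) (hX : (X : L) = x) :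
    ((typU (fun σ => (t σ : ℤ)) X : QBarˣ) : QBar) = ((typB t x : ZBar) : QBar) := by
  rw [coe_typB]
  unfold typU
  rw [Units.coe_prod]
  refine Finset.prod_congr rfl fun σ _ => ?_
  rw [zpow_natCast, Units.val_pow_eq_pow_val, Units.coe_map, ← hX]
  rfl

end typ

theorem main : Pool.Agent.H500.ME.S_DIV := by
  intro L _ _ A B t ψ hA hB h
  classical
  let u : Ideal (𝓞 L) → QBarˣ := fun I =>
    if hI : ((ψ I : ZBar) : QBar) = 0 then 1 else Units.mk0 _ hI
  have hu : ∀ I : Ideal (𝓞 L), I ≠ ⊥ → IsCoprime I (Ideal.span {(B : 𝓞 L)}) →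
      (u I : QBar) = ((ψ I : ZBar) : QBar) := by
    intro I hI hc
    have h1 : ψ I ≠ 0 := (h.cop I hI).2 hc
    have h2 : ¬ ((ψ I : ZBar) : QBar) = 0 := fun h0 => h1 (RingOfIntegers.coe_eq_zero_iff.1 h0)
    change ((if hI : ((ψ I : ZBar) : QBar) = 0 then 1 else Units.mk0 _ hI : QBarˣ) : QBar) = _
    rw [dif_neg h2]
    rfl
  have hone : u ⊤ = 1 := by
    apply Units.ext
    rw [hu ⊤ top_ne_bot (by
      rw [Ideal.isCoprime_iff_sup_eq, top_sup_eq]), ← Ideal.one_eq_top, map_one]
    rfl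
  have hmul : ∀ I J : Ideal (𝓞 L), I ≠ ⊥ → J ≠ ⊥ → IsCoprime I (Ideal.span {(B : 𝓞 L)}) →
      IsCoprime J (Ideal.span {(B : 𝓞 L)}) → u (I * J) = u I * u J := by
    intro I J hI hJ hI' hJ'
    apply Units.ext
    rw [Units.val_mul, hu I hI hI', hu J hJ hJ', hu (I * J) (mul_ne_zero hI hJ)
      (IsCoprime.mul_left hI' hJ'), map_mul, RingOfIntegers.coe_eq_algebraMap, map_mul]
  have hprin : ∀ (y : 𝓞 L) (Y : Lˣ), InRay A y → (Y : L) = y →
      AD B u (prin Y) = Additive.ofMul (typU (fun σ => (t σ : ℤ)) Y) := by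
    intro y Y hy hY
    have hy0 : Ideal.span {y} ≠ ⊥ := by
      rw [Ne, Ideal.span_singleton_eq_bot]
      exact hy.1
    have hc := cop_of_ray hB hy
    rw [AD_ideal hone hmul (Ideal.span {y}) hy0 hc (prin Y)
      (fun v => by rw [prin_apply, hY, FractionalIdeal.coeIdeal_span_singleton])]
    congr 1
    apply Units.ext
    rw [hu _ hy0 hc, h.typ y hy, coe_typU t y Y hY]
  refine ⟨AD B u, fun x hx => ?_, fun w hw => ?_⟩
  · obtain ⟨y, z, Z, hy, hz, hZ, hY⟩ := exists_quot hA.ne' hx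
    have h1 : prin x = prin (x * Z) - prin Z := by
      rw [← prin_div, mul_div_cancel_right]
    rw [h1, map_sub, hprin y _ hy hY, hprin z Z hz hZ, typU_mul, ofMul_mul, add_sub_cancel_right]
  · have hc : IsCoprime w.asIdeal (Ideal.span {(B : 𝓞 L)}) :=
      cop_of_not_le w fun h0 => hw ((Ideal.span_singleton_le_iff_mem _).1 h0)
    change ((Additive.toMul (AD B u (Finsupp.single w 1)) : QBarˣ) : QBar) = _
    rw [AD_single hw, toMul_ofMul, hu _ w.ne_bot hc]

end

end Pool.Agent.H231.ME.DIV
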